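import Pool.Agent.Y338.BP.F

set_option autoImplicit false

open MeasureTheory Set
open scoped ENNReal

namespace Pool.Agent.Results.MP_dd244f_an.AllPowers

/-- the `n`-th power of the Beurling transform of a Schwartz function `f`: the Fourier multiplier
with symbol `(conj ξ / ξ) ^ n`, literal form -/
noncomputable def bp (n : ℕ) (f : SchwartzMap ℂ ℂ) (z : ℂ) : ℂ :=
  ∫ ξ : ℂ,
    Complex.exp (2 * (Real.pi : ℂ) * Complex.I * (((z.re * ξ.re + z.im * ξ.im : ℝ)) : ℂ)) *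
      ((starRingEnd ℂ ξ / ξ) ^ n *
        ∫ x : ℂ, Complex.exp (-(2 * (Real.pi : ℂ) * Complex.I *
          (((x.re * ξ.re + x.im * ξ.im : ℝ)) : ℂ))) * f x)

/-- `∫ (a ‖f‖² + ∑_{m ≥ 1} b_{m-1} ‖T^m f‖²)^(p/2)` -/
noncomputable def sqInt (p : ℝ) (a : ℝ≥0∞) (b : ℕ → ℝ≥0∞) (f : SchwartzMap ℂ ℂ) : ℝ≥0∞ :=
  ∫⁻ z : ℂ, (a * ‖f z‖ₑ ^ 2 + ∑' m : ℕ, b m * ‖bp (m + 1) f z‖ₑ ^ 2) ^ (p / 2)

open Pool.Agent.Y338.BP Pool.Agent.TH55.PowA in
lemma bp_eq (n : ℕ) (f : SchwartzMap ℂ ℂ) (z : ℂ) : T (fun ξ => bs ξ ^ n) f z = bp n f z := rfl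

open Pool.Agent.Y338.BP Pool.Agent.TH55.PowA in
lemma general' {p : ℝ} (hp : 2 ≤ p) (ν : Measure ℝ) [IsProbabilityMeasure ν]
    (hν : ∀ᵐ u ∂ν, 0 ≤ u ∧ u < 1) (f : SchwartzMap ℂ ℂ) :
    sqInt p (∫⁻ u, ENNReal.ofReal (wu u 0) ∂ν) (fun m => ∫⁻ u, ENNReal.ofReal (wu u (m + 1)) ∂ν) f
      ≤ ENNReal.ofReal ((p - 1) ^ p) * ∫⁻ z : ℂ, ‖f z‖ₑ ^ p := by
  have h := general hp (fun f => base' p hp f) ν hν f
  rw [const_pow hp] at h
  unfold sqInt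
  refine le_trans (le_of_eq (lintegral_congr fun z => ?_)) h
  rw [split_zero (fun n => ∫⁻ u, ENNReal.ofReal (wu u n) ∂ν) f z]
  rfl

open Pool.Agent.Y338.BP Pool.Agent.TH55.PowA in
/-- **All powers of the Beurling transform at once, with the constant `p - 1`.** -/
theorem result (p : ℝ) (hp : 2 ≤ p) (f : SchwartzMap ℂ ℂ) :
    (∀ (ν : Measure ℝ) [IsProbabilityMeasure ν], (∀ᵐ u ∂ν, 0 ≤ u ∧ u < 1) →
      sqInt p (∫⁻ u, ENNReal.ofReal u ∂ν) (fun m => ∫⁻ u, ENNReal.ofReal ((1 - u) ^ 2 * u ^ m) ∂ν) f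
        ≤ ENNReal.ofReal ((p - 1) ^ p) * ∫⁻ z : ℂ, ‖f z‖ₑ ^ p) ∧
    (∀ (ν : Measure ℝ) [IsProbabilityMeasure ν], (∀ᵐ u ∂ν, 0 ≤ u ∧ u < 1) →
      sqInt 2 (∫⁻ u, ENNReal.ofReal u ∂ν) (fun m => ∫⁻ u, ENNReal.ofReal ((1 - u) ^ 2 * u ^ m) ∂ν) f
        = ∫⁻ z : ℂ, ‖f z‖ₑ ^ 2) ∧
    sqInt p (ENNReal.ofReal (1 / 2))
        (fun m => ENNReal.ofReal (2 / (((m : ℝ) + 1) * (m + 2) * (m + 3)))) f
      ≤ ENNReal.ofReal ((p - 1) ^ p) * ∫⁻ z : ℂ, ‖f z‖ₑ ^ p ∧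
    ∀ n : ℕ, 1 ≤ n →
      ∫⁻ z : ℂ, (∑ m ∈ Finset.range n, ‖bp (m + 1) f z‖ₑ ^ 2) ^ (p / 2)
        ≤ ENNReal.ofReal ((Real.sqrt (Real.exp 1) * n * (p - 1)) ^ p) * ∫⁻ z : ℂ, ‖f z‖ₑ ^ p := by
  have e0 : ∀ u : ℝ, wu u 0 = u := fun u => by simp [wu]
  have e1 : ∀ (u : ℝ) (m : ℕ), wu u (m + 1) = (1 - u) ^ 2 * u ^ m := fun u m => by simp [wu]
  refine ⟨fun ν _ hν => ?_, fun ν _ hν => ?_, ?_, fun n hn => ?_⟩
  · have h := general' hp ν hν f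
    simpa only [e0, e1] using h
  · have h := two_eq ν hν f
    rw [← h]
    unfold sqInt
    refine lintegral_congr fun z => ?_
    rw [split_zero (fun n => ∫⁻ u, ENNReal.ofReal (wu u n) ∂ν) f z]
    simp only [e0, e1, bp_eq]
    norm_num
  · have h := general' hp un un_ae f
    rw [un_zero] at h
    simpa only [un_succ] using h
  · set u : ℝ := 1 - 1 / (n : ℝ) with hu
    have hnr : (1 : ℝ) ≤ n := by exact_mod_cast hn
    have hn0 : (0 : ℝ) < n := by linarith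
    have h0 : 0 ≤ u := by
      rw [hu, sub_nonneg, div_le_one hn0]; exact hnr
    have h1 : u < 1 := by
      have : 0 < 1 / (n : ℝ) := by positivity
      rw [hu]; linarith
    have h := general' hp (Measure.dirac u) (by
      rw [ae_dirac_eq]
      exact ⟨h0, h1⟩) f
    unfold sqInt at h
    simp only [lintegral_dirac] at h
    set C : ℝ := Real.exp 1 * (n : ℝ) ^ 2 with hC
    have hC0 : 0 ≤ C := by positivity
    have hz : ∀ z : ℂ, (∑ m ∈ Finset.range n, ‖bp (m + 1) f z‖ₑ ^ 2) ^ (p / 2)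
        ≤ ENNReal.ofReal C ^ (p / 2) * (ENNReal.ofReal (wu u 0) * ‖f z‖ₑ ^ 2 +
          ∑' m : ℕ, ENNReal.ofReal (wu u (m + 1)) * ‖bp (m + 1) f z‖ₑ ^ 2) ^ (p / 2) := by
      intro z
      rw [← ENNReal.mul_rpow_of_nonneg _ _ (by linarith)]
      refine ENNReal.rpow_le_rpow ?_ (by linarith)
      calc ∑ m ∈ Finset.range n, ‖bp (m + 1) f z‖ₑ ^ 2
          ≤ ∑ m ∈ Finset.range n, ENNReal.ofReal C * (ENNReal.ofReal (wu u (m + 1)) *
            ‖bp (m + 1) f z‖ₑ ^ 2) := by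
            refine Finset.sum_le_sum fun m hm => ?_
            rw [← mul_assoc, ← ENNReal.ofReal_mul hC0]
            have h2 := ratio n hn m (Finset.mem_range.1 hm)
            calc ‖bp (m + 1) f z‖ₑ ^ 2 = 1 * ‖bp (m + 1) f z‖ₑ ^ 2 := (one_mul _).symm
              _ ≤ _ := by
                gcongr
                rw [← ENNReal.ofReal_one]
                exact ENNReal.ofReal_le_ofReal h2
        _ = ENNReal.ofReal C * ∑ m ∈ Finset.range n, (ENNReal.ofReal (wu u (m + 1)) *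
            ‖bp (m + 1) f z‖ₑ ^ 2) := by rw [Finset.mul_sum]
        _ ≤ _ := by
            gcongr
            exact (ENNReal.sum_le_tsum _).trans le_add_self
    calc ∫⁻ z : ℂ, (∑ m ∈ Finset.range n, ‖bp (m + 1) f z‖ₑ ^ 2) ^ (p / 2)
        ≤ ∫⁻ z : ℂ, ENNReal.ofReal C ^ (p / 2) * (ENNReal.ofReal (wu u 0) * ‖f z‖ₑ ^ 2 +
          ∑' m : ℕ, ENNReal.ofReal (wu u (m + 1)) * ‖bp (m + 1) f z‖ₑ ^ 2) ^ (p / 2) :=
          lintegral_mono hz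
      _ = ENNReal.ofReal C ^ (p / 2) * ∫⁻ z : ℂ, (ENNReal.ofReal (wu u 0) * ‖f z‖ₑ ^ 2 +
          ∑' m : ℕ, ENNReal.ofReal (wu u (m + 1)) * ‖bp (m + 1) f z‖ₑ ^ 2) ^ (p / 2) := by
          rw [lintegral_const_mul']
          exact ENNReal.rpow_ne_top_of_nonneg (by linarith) ENNReal.ofReal_ne_top
      _ ≤ ENNReal.ofReal C ^ (p / 2) * (ENNReal.ofReal ((p - 1) ^ p) * ∫⁻ z : ℂ, ‖f z‖ₑ ^ p) := by
          gcongr
      _ = _ := by
          rw [← mul_assoc]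
          congr 1
          rw [ENNReal.ofReal_rpow_of_nonneg hC0 (by linarith), ← ENNReal.ofReal_mul (by positivity)]
          congr 1
          have hC2 : C = (Real.sqrt (Real.exp 1) * n) ^ 2 := by
            rw [mul_pow, Real.sq_sqrt (Real.exp_pos 1).le]
          have hsn : 0 ≤ Real.sqrt (Real.exp 1) * n := by positivity
          rw [Real.mul_rpow hsn (by linarith)]
          congr 1
          rw [hC2, ← Real.rpow_natCast, ← Real.rpow_mul hsn]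
          congr 1
          push_cast
          ring

end Pool.Agent.Results.MP_dd244f_an.AllPowers
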