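import Pool.Agent.Y282.RB.Fin2

/-!
# All powers of the Beurling transform on one angular class each, large `p`

For every `n ≥ 1` and every `p ≥ 4000 n ^ 5` the norm of `T ^ n` on the Schwartz functions `f` with
`f (r e^{iθ}) = e^{2 n i θ} φ(r)` is exactly the constant of the question.
-/

set_option autoImplicit false

open MeasureTheory

namespace Pool.Agent.Results.MP_dd244f_an.AngularPowersLargeP

/-- The `n`-th power of the Beurling transform: the Fourier multiplier with symbol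
`(conj ξ / ξ) ^ n`, in the literal form of the frozen statement. -/
noncomputable def T (n : ℕ) (f : ℂ → ℂ) (z : ℂ) : ℂ :=
  ∫ ξ : ℂ,
    Complex.exp (2 * (Real.pi : ℂ) * Complex.I * (((z.re * ξ.re + z.im * ξ.im : ℝ)) : ℂ)) *
      ((starRingEnd ℂ ξ / ξ) ^ n *
        ∫ x : ℂ, Complex.exp (-(2 * (Real.pi : ℂ) * Complex.I *
          (((x.re * ξ.re + x.im * ξ.im : ℝ)) : ℂ))) * f x)

/-- The constant `(1/q)_n / (1/p)_n` of the question. -/
noncomputable def K (n : ℕ) (p : ℝ) : ℝ :=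
  (ascPochhammer ℝ n).eval (1 - 1 / p) / (ascPochhammer ℝ n).eval (1 / p)

/-- The set of admissible constants for `T ^ n` in `L^p` on the class of the Schwartz functions with
`f (a z) = a ^ (2 n) f z` for `|a| = 1`. -/
def Admissible (n : ℕ) (p : ℝ) : Set ℝ :=
  {C | 0 ≤ C ∧ ∀ f : SchwartzMap ℂ ℂ, (∀ a z : ℂ, ‖a‖ = 1 → f (a * z) = a ^ (2 * n) * f z) →
    eLpNorm (T n f) (ENNReal.ofReal p) (volume : Measure ℂ)
      ≤ ENNReal.ofReal C * eLpNorm f (ENNReal.ofReal p) (volume : Measure ℂ)}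

/-- For every `n ≥ 1` and every real `p ≥ 4000 n ^ 5` the least admissible constant for `T ^ n` in
`L^p` on the Schwartz functions `f` with `f (a z) = a ^ (2 n) f z` for `|a| = 1` (that is,
`f (r e^{iθ}) = e^{2 n i θ} φ(r)`) is the constant `(1/q)_n / (1/p)_n` of the question; in particular
the inequality of the question holds for these `f`. -/
theorem result (n : ℕ) (p : ℝ) (hn : 1 ≤ n) (hp : 4000 * (n : ℝ) ^ 5 ≤ p) :
    IsLeast (Admissible n p) (K n p) := by
  have hn' : (1 : ℝ) ≤ (n : ℝ) := by exact_mod_cast hn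
  have hp2 : 2 ≤ p := by
    have : (1 : ℝ) ≤ (n : ℝ) ^ 5 := one_le_pow₀ hn'
    linarith
  have hT : ∀ n f, T n f = Y282.RB.Tn n f := fun n f => rfl
  have hK : K n p = Y282.RB.Cn p n := (Y282.RB.K3.main n p (by linarith)).symm
  have hpos : 0 < Y282.RB.Cn p n := by
    unfold Y282.RB.Cn
    refine Finset.prod_pos (fun j _ => ?_)
    have h1 : (1 : ℝ) / p < 1 := by
      rw [div_lt_one (by linarith)]; linarith
    have h2 : (0 : ℝ) < 1 / p := by positivity
    have h3 : (0 : ℝ) ≤ (j : ℝ) := Nat.cast_nonneg j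
    apply div_pos <;> linarith
  refine ⟨⟨hK ▸ hpos.le, fun f hf => ?_⟩, ?_⟩
  · rw [hK]
    exact Y282.RB.Fin2.schw n p hn hp f hf
  · rintro C ⟨hC0, hCf⟩
    by_contra hlt
    rw [not_le, hK] at hlt
    obtain ⟨g, hg, hs, hlt'⟩ := Y282.RB.Fin.sharp n p C hn (by linarith) hC0 hlt
    obtain ⟨f, hf1, hf2, _⟩ := Y282.RB.K2.main n g hg hs
    have h5 := hCf f hf2
    rw [hT, hf1] at h5
    exact absurd h5 (not_le.2 hlt')

end Pool.Agent.Results.MP_dd244f_an.AngularPowersLargeP
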